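import Pool.Agent.Helper98_CC.Stmts
import Pool.Agent.Helper83_WRA.LabSum

/-!
CC, module LAB: the sum of the commutator counts as a sum over the blocks.
-/

open scoped BigOperators

noncomputable section

namespace Pool.Agent.Helper97_CC

open Pool.Agent.Helper51_AWC Pool.Agent.Helper79_WRA Pool.Agent.Helper98_CC

section basic

variable {G : Type} [Group G] [Finite G]

/-- the irreducible characters of `H`, extended by zero, as a finite set -/
def IR (H : Subgroup G) : Finset (G → ℂ) := (IrrS_finite H).toFinset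

theorem mem_IR {H : Subgroup G} {a : G → ℂ} : a ∈ IR H ↔ a ∈ IrrS H := by
  rw [IR, Set.Finite.mem_toFinset]

/-- the sum of the values of the central characters of `H` at the class of `c` -/
def NN (H : Subgroup G) (c : G) : ℂ := ∑ a ∈ IR H, omega (MonoidHom.id G) a c

theorem comm2_eq (hf : FrobStmt) (H : Subgroup G) (c : G) :
    (comm2 H c : ℂ) = (Nat.card H : ℂ) * ∑ a ∈ IR H, a c / a 1 := by
  classical
  by_cases hc : c ∈ H
  · have := Fintype.ofFinite H
    have h1 : comm2 H c =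
        Nat.card {p : H × H // p.1 * p.2 * p.1⁻¹ * p.2⁻¹ = (⟨c, hc⟩ : H)} := by
      apply Nat.card_congr
      exact
        { toFun := fun p => ⟨(⟨p.1.1, p.2.1⟩, ⟨p.1.2, p.2.2.1⟩), Subtype.ext p.2.2.2⟩
          invFun := fun p => ⟨((p.1.1 : G), (p.1.2 : G)), p.1.1.2, p.1.2.2,
            congrArg Subtype.val p.2⟩
          left_inv := fun _ => rfl
          right_inv := fun _ => rfl }
    rw [h1, hf H ⟨c, hc⟩]
    congr 1
    rw [finsum_mem_eq_finite_toFinset_sum _ (irr_finite' (G := H))]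
    symm
    apply Finset.sum_bij (fun (a : G → ℂ) _ => (fun x : H => a x))
    · intro a ha
      rw [Set.Finite.mem_toFinset]
      exact (mem_IR.1 ha).2
    · intro a ha b hb h
      exact IrrS_ext (mem_IR.1 ha) (mem_IR.1 hb) (fun x => congrFun h x)
    · intro ϑ hϑ
      rw [Set.Finite.mem_toFinset] at hϑ
      obtain ⟨a, ha, hax⟩ := exists_IrrS H hϑ
      exact ⟨a, mem_IR.2 ha, funext hax⟩
    · intro a _
      rfl
  · have h1 : comm2 H c = 0 := by
      unfold comm2
      rw [Nat.card_eq_zero]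
      left
      constructor
      rintro ⟨p, h1, h2, h3⟩
      exact hc (h3 ▸ H.mul_mem (H.mul_mem (H.mul_mem h1 h2) (H.inv_mem h1)) (H.inv_mem h2))
    rw [h1, Nat.cast_zero, Finset.sum_eq_zero, mul_zero]
    intro a ha
    rw [(mem_IR.1 ha).1 c hc, zero_div]

open Classical in
/-- the conjugacy class -/
def KK (c : G) : Finset G := (Set.toFinite {x : G | IsConj c x}).toFinset

theorem mem_KK {c x : G} : x ∈ KK c ↔ IsConj c x := by
  rw [KK, Set.Finite.mem_toFinset]
  rfl

theorem sum_comm2 (hf : FrobStmt) (H : Subgroup G) (c : G) :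
    ((∑ x ∈ KK c, (comm2 H x : ℤ) : ℤ) : ℂ) = (Nat.card H : ℂ) * NN H c := by
  classical
  have := Fintype.ofFinite G
  push_cast
  rw [Finset.sum_congr rfl (fun x _ => comm2_eq hf H x), ← Finset.mul_sum, Finset.sum_comm]
  congr 1
  unfold NN
  refine Finset.sum_congr rfl fun a _ => ?_
  rw [omega_eq, ← Finset.sum_div]
  congr 1
  rw [← Finset.sum_filter]
  apply Finset.sum_congr _ fun _ _ => rfl
  ext x
  rw [mem_KK, Finset.mem_filter]
  exact ⟨fun h => ⟨Finset.mem_univ _, h⟩, fun h => h.2⟩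

theorem NN_integral (H : Subgroup G) (c : G) : IsIntegral ℤ (NN H c) :=
  IsIntegral.sum _ fun _ ha => omega_IrrS_integral (mem_IR.1 ha) c

theorem NN_int (hf : FrobStmt) (H : Subgroup G) (c : G) : ∃ z : ℤ, NN H c = z := by
  have hH : (Nat.card H : ℂ) ≠ 0 := by exact_mod_cast Nat.card_pos.ne'
  have h1 := sum_comm2 hf H c
  set m : ℤ := ∑ x ∈ KK c, (comm2 H x : ℤ) with hm
  have h2 : NN H c = algebraMap ℚ ℂ ((m : ℚ) / (Nat.card H : ℚ)) := by
    rw [map_div₀, map_intCast, map_natCast, h1, mul_div_cancel_left₀ _ hH]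
  have h3 := NN_integral H c
  rw [h2, isIntegral_algebraMap_iff (algebraMap ℚ ℂ).injective] at h3
  obtain ⟨z, hz⟩ := IsIntegrallyClosed.isIntegral_iff.1 h3
  refine ⟨z, ?_⟩
  rw [h2, ← hz]
  simp

open Classical in
/-- the integer `NN H c` -/
def NZ (H : Subgroup G) (c : G) : ℤ := if h : ∃ z : ℤ, NN H c = z then h.choose else 0

theorem NZ_spec (hf : FrobStmt) (H : Subgroup G) (c : G) : (NZ H c : ℂ) = NN H c := by
  unfold NZ
  rw [dif_pos (NN_int hf H c)]
  exact (NN_int hf H c).choose_spec.symm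

theorem sum_comm2' (hf : FrobStmt) (H : Subgroup G) (c : G) :
    ∑ x ∈ KK c, (comm2 H x : ℤ) = (Nat.card H : ℤ) * NZ H c := by
  have h := sum_comm2 hf H c
  rw [← NZ_spec hf] at h
  exact_mod_cast h

omit [Finite G] in
theorem cc1 (g x y : G) : (g * x * g⁻¹) * (g * y * g⁻¹) * (g * x * g⁻¹)⁻¹ * (g * y * g⁻¹)⁻¹ =
    g * (x * y * x⁻¹ * y⁻¹) * g⁻¹ := by group

omit [Finite G] in
theorem cc2 (g x y : G) : (g⁻¹ * x * g) * (g⁻¹ * y * g) * (g⁻¹ * x * g)⁻¹ * (g⁻¹ * y * g)⁻¹ =
    g⁻¹ * (x * y * x⁻¹ * y⁻¹) * g := by group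

omit [Finite G] in
theorem comm2_conj (g : G) (H : Subgroup G) (c : G) :
    comm2 (conjS g H) (g * c * g⁻¹) = comm2 H c := by
  symm
  apply Nat.card_congr
  exact
    { toFun := fun p => ⟨(g * p.1.1 * g⁻¹, g * p.1.2 * g⁻¹), by
        rw [mem_conjS]
        have : g⁻¹ * (g * p.1.1 * g⁻¹) * g = p.1.1 := by group
        rw [this]; exact p.2.1, by
        rw [mem_conjS]
        have : g⁻¹ * (g * p.1.2 * g⁻¹) * g = p.1.2 := by group
        rw [this]; exact p.2.2.1, (cc1 g p.1.1 p.1.2).trans (by rw [p.2.2.2])⟩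
      invFun := fun p => ⟨(g⁻¹ * p.1.1 * g, g⁻¹ * p.1.2 * g), mem_conjS.1 p.2.1,
        mem_conjS.1 p.2.2.1, (cc2 g p.1.1 p.1.2).trans (by rw [p.2.2.2]; group)⟩
      left_inv := fun p => by
        apply Subtype.ext
        apply Prod.ext
        · change g⁻¹ * (g * p.1.1 * g⁻¹) * g = p.1.1
          group
        · change g⁻¹ * (g * p.1.2 * g⁻¹) * g = p.1.2
          group
      right_inv := fun p => by
        apply Subtype.ext
        apply Prod.ext
        · change g * (g⁻¹ * p.1.1 * g) * g⁻¹ = p.1.1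
          group
        · change g * (g⁻¹ * p.1.2 * g) * g⁻¹ = p.1.2
          group }

theorem KK_conj (g c : G) (f : G → ℤ) :
    ∑ x ∈ KK c, f (g * x * g⁻¹) = ∑ x ∈ KK c, f x := by
  apply Finset.sum_bij (fun x _ => g * x * g⁻¹)
  · intro x hx
    rw [mem_KK] at hx ⊢
    exact hx.trans (isConj_iff.2 ⟨g, rfl⟩)
  · intro x _ y _ h
    simpa using h
  · intro x hx
    refine ⟨g⁻¹ * x * g, ?_, by group⟩
    rw [mem_KK] at hx ⊢
    exact hx.trans (isConj_iff.2 ⟨g⁻¹, by group⟩)
  · intro x _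
    rfl

theorem NZ_conj (hf : FrobStmt) (g : G) (H : Subgroup G) (c : G) :
    NZ (conjS g H) c = NZ H c := by
  have h1 := sum_comm2' hf (conjS g H) c
  rw [← KK_conj g c (fun x => (comm2 (conjS g H) x : ℤ))] at h1
  simp only [comm2_conj] at h1
  rw [sum_comm2' hf, card_conjS] at h1
  have hH : (Nat.card H : ℤ) ≠ 0 := by exact_mod_cast Nat.card_pos.ne'
  exact (mul_left_cancel₀ hH h1).symm

/-! ### sums over chains -/

/-- orbit counting for sums over chains -/
theorem card_mul_sum (ℓ : ℕ) (W : Subgroup G → ℤ)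
    (hW : ∀ (g : G) (H : Subgroup G), W (conjS g H) = W H) :
    (Nat.card G : ℤ) * ∑ᶠ q : Quotient (chainSetoid ℓ G), (-1) ^ q.out.length *
        W (stab q.out.mem) =
      ∑ᶠ d : PChain ℓ G, (-1) ^ d.length * ((Nat.card (stab d.mem) : ℤ) * W (stab d.mem)) := by
  classical
  have := Fintype.ofFinite G
  have := Fintype.ofFinite (PChain ℓ G)
  have := Fintype.ofFinite (Quotient (chainSetoid ℓ G))
  rw [finsum_eq_sum_of_fintype, finsum_eq_sum_of_fintype, Finset.mul_sum]
  rw [← Finset.sum_fiberwise (Finset.univ) (fun d : PChain ℓ G => (Quotient.mk (chainSetoid ℓ G) d))]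
  apply Finset.sum_congr rfl
  intro q _
  have h2 : ∀ d ∈ Finset.univ.filter (fun d : PChain ℓ G => Quotient.mk (chainSetoid ℓ G) d = q),
      (-1) ^ d.length * ((Nat.card (stab d.mem) : ℤ) * W (stab d.mem)) =
        (-1) ^ q.out.length * ((Nat.card (stab q.out.mem) : ℤ) * W (stab q.out.mem)) := by
    intro d hd
    rw [Finset.mem_filter] at hd
    have h3 : (chainSetoid ℓ G).r d q.out := by
      apply Quotient.exact (s := chainSetoid ℓ G)
      rw [hd.2, Quotient.out_eq]
    obtain ⟨g, hg⟩ := (chainSetoid_iff d q.out).1 h3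
    rw [← hg, stab_smul, hW, card_conjS]
    congr 2
    unfold PChain.length
    rw [smul_mem_def, Finset.card_map]
  rw [Finset.sum_congr rfl h2, Finset.sum_const, nsmul_eq_mul]
  have h3 : (Finset.univ.filter (fun d : PChain ℓ G => Quotient.mk (chainSetoid ℓ G) d = q)).card *
      Nat.card (stab q.out.mem) = Nat.card G := by
    have h4 := MulAction.card_orbit_mul_card_stabilizer_eq_card_group G q.out
    rw [← Nat.card_eq_fintype_card, ← Nat.card_eq_fintype_card, ← Nat.card_eq_fintype_card,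
      stabilizer_chain] at h4
    rw [← h4]
    congr 1
    rw [← Set.ncard_coe_finset]
    show _ = (MulAction.orbit G q.out).ncard
    congr 1
    ext d
    simp only [Finset.coe_filter, Finset.mem_univ, true_and, Set.mem_ofPred_eq]
    rw [MulAction.mem_orbit_iff, ← chainSetoid_iff]
    constructor
    · rintro rfl
      exact Quotient.exact (s := chainSetoid ℓ G) (Quotient.out_eq _)
    · intro h
      rw [← Quotient.out_eq q]
      exact Quotient.sound (s := chainSetoid ℓ G) ((chainSetoid ℓ G).iseqv.symm h)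
  rw [← h3]
  push_cast
  ring

/-- `torusSum` as a sum over the chains starting with the trivial group -/
theorem torusSum_eq {ℓ : ℕ} (hop : opCore ℓ G = ⊥) (c : G) :
    torusSum ℓ c = ∑ᶠ d : PChain ℓ G, (-1) ^ d.length * (comm2 (stab d.mem) c : ℤ) := by
  classical
  have := Fintype.ofFinite G
  have := Fintype.ofFinite (PChain ℓ G)
  have hfin : (pChains ℓ G).Finite := Set.toFinite _
  unfold torusSum
  rw [finsum_mem_eq_finite_toFinset_sum _ hfin, finsum_eq_sum_of_fintype]
  have hbot : ∀ d : PChain ℓ G, (⊥ : Subgroup G) ∈ d.mem := fun d => hop ▸ d.core_mem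
  symm
  apply Finset.sum_bij (fun d _ => d.mem.erase ⊥)
  · intro d _
    rw [Set.Finite.mem_toFinset]
    exact ⟨fun D hD => ⟨Finset.ne_of_mem_erase hD, d.pgroup D (Finset.mem_of_mem_erase hD)⟩,
      d.chain.mono (fun D hD => Finset.mem_of_mem_erase hD)⟩
  · intro d _ e _ h
    apply PChain.ext'
    rw [← Finset.insert_erase (hbot d), h, Finset.insert_erase (hbot e)]
  · intro d hd
    rw [Set.Finite.mem_toFinset] at hd
    refine ⟨⟨insert ⊥ d, ?_, ?_, ?_, ?_⟩, Finset.mem_univ _, ?_⟩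
    · rw [hop]
      exact Finset.mem_insert_self _ _
    · intro D _
      rw [hop]
      exact bot_le
    · intro D hD
      rcases Finset.mem_insert.1 hD with rfl | hD
      · exact IsPGroup.of_bot
      · exact (hd.1 D hD).2
    · rw [Finset.coe_insert]
      exact hd.2.insert (fun D _ _ => Or.inl bot_le)
    · exact Finset.erase_insert (fun h => (hd.1 ⊥ h).1 rfl)
  · intro d _
    have h1 : d.length = (d.mem.erase ⊥).card := by
      rw [Finset.card_erase_of_mem (hbot d)]
      rfl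
    have h2 : stab (d.mem.erase ⊥) = stab d.mem := by
      ext g
      rw [mem_stab, mem_stab]
      constructor
      · intro h D hD
        by_cases hD' : D = ⊥
        · rw [hD']
          ext x
          rw [mem_conjS, Subgroup.mem_bot, Subgroup.mem_bot]
          constructor
          · intro hx
            have : x = g * (g⁻¹ * x * g) * g⁻¹ := by group
            rw [this, hx]; group
          · rintro rfl; group
        · exact h D (Finset.mem_erase.2 ⟨hD', hD⟩)
      · intro h D hD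
        exact h D (Finset.mem_of_mem_erase hD)
    rw [h1, h2]

theorem torusSum_conj {ℓ : ℕ} (hop : opCore ℓ G = ⊥) (c : G) {x : G} (h : IsConj c x) :
    torusSum ℓ x = torusSum ℓ c := by
  obtain ⟨g, rfl⟩ := isConj_iff.1 h
  have := Fintype.ofFinite (PChain ℓ G)
  rw [torusSum_eq hop, torusSum_eq hop, finsum_eq_sum_of_fintype, finsum_eq_sum_of_fintype]
  symm
  apply Fintype.sum_equiv (MulAction.toPerm g)
  intro d
  rw [MulAction.toPerm_apply, stab_smul, comm2_conj]
  congr 2
  unfold PChain.length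
  rw [smul_mem_def, Finset.card_map]

theorem card_KK (c : G) : (cz c : ℤ) * ((KK c).card : ℤ) = Nat.card G := by
  classical
  have := Fintype.ofFinite G
  have := Fintype.ofFinite (ConjAct G)
  have h1 := MulAction.card_orbit_mul_card_stabilizer_eq_card_group (ConjAct G) c
  rw [← Nat.card_eq_fintype_card, ← Nat.card_eq_fintype_card, ← Nat.card_eq_fintype_card,
    ← Subgroup.nat_card_centralizer_nat_card_stabilizer] at h1
  have h2 : Nat.card (MulAction.orbit (ConjAct G) c) = (KK c).card := by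
    rw [← Set.ncard_coe_finset]
    change (MulAction.orbit (ConjAct G) c).ncard = _
    congr 1
    ext x
    rw [ConjAct.mem_orbit_conjAct, Finset.mem_coe, mem_KK]
    exact ⟨fun h => h.symm, fun h => h.symm⟩
  have h3 : Nat.card (ConjAct G) = Nat.card G := rfl
  rw [h2, h3] at h1
  rw [← h1]
  unfold cz
  push_cast
  ring

/-- the integer `n` of the statement -/
def nn (ℓ : ℕ) (c : G) : ℤ :=
  ∑ᶠ q : Quotient (chainSetoid ℓ G), (-1) ^ q.out.length * NZ (stab q.out.mem) c

theorem torusSum_nn (hf : FrobStmt) {ℓ : ℕ} (hop : opCore ℓ G = ⊥) (c : G) :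
    torusSum ℓ c = (cz c : ℤ) * nn ℓ c := by
  have hG : (Nat.card G : ℤ) ≠ 0 := by exact_mod_cast Nat.card_pos.ne'
  have := Fintype.ofFinite (PChain ℓ G)
  apply mul_left_cancel₀ hG
  have h1 : (Nat.card G : ℤ) * nn ℓ c = ∑ x ∈ KK c, torusSum ℓ x := by
    unfold nn
    rw [card_mul_sum ℓ (fun H => NZ H c) (fun g H => NZ_conj hf g H c)]
    simp only [torusSum_eq hop, finsum_eq_sum_of_fintype]
    rw [Finset.sum_comm]
    refine Finset.sum_congr rfl fun d _ => ?_
    rw [← Finset.mul_sum, sum_comm2' hf]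
  have h2 : ∑ x ∈ KK c, torusSum ℓ x = ((KK c).card : ℤ) * torusSum ℓ c := by
    rw [Finset.sum_congr rfl (fun x hx => torusSum_conj hop c (mem_KK.1 hx)), Finset.sum_const,
      nsmul_eq_mul]
  calc (Nat.card G : ℤ) * torusSum ℓ c = (cz c : ℤ) * (((KK c).card : ℤ) * torusSum ℓ c) := by
        rw [← card_KK c]; ring
    _ = (Nat.card G : ℤ) * ((cz c : ℤ) * nn ℓ c) := by
        rw [← h2, ← h1]; ring

/-! ### residues -/

theorem red_intCast (M : Ideal (integralClosure ℤ ℂ)) (z : ℤ) :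
    red M (z : ℂ) = (z : FF M) := by
  have h : IsIntegral ℤ (z : ℂ) := isIntegral_algebraMap (R := ℤ) (A := ℂ) (x := z)
  rw [red_of h]
  have e : (⟨(z : ℂ), h⟩ : integralClosure ℤ ℂ) = (z : integralClosure ℤ ℂ) := by
    apply Subtype.ext
    simp
  rw [e, map_intCast]

theorem NZ_red (hf : FrobStmt) (M : Ideal (integralClosure ℤ ℂ)) (H : Subgroup G) (c : G) :
    (NZ H c : FF M) = ∑ a ∈ IR H, labF M a c := by
  rw [← red_intCast, NZ_spec hf, NN, red_sum]
  · rfl
  · intro a ha
    exact omega_IrrS_integral (mem_IR.1 ha) c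

theorem NZ_labels (hf : FrobStmt) (M : Ideal (integralClosure ℤ ℂ)) (H : Subgroup G) (c : G)
    (L : Finset (G → FF M)) (hL : ∀ a ∈ IrrS H, labF M a ∈ L) :
    (NZ H c : FF M) = ∑ β ∈ L, ((({a | a ∈ IrrS H ∧ labF M a = β}.ncard : ℕ) : FF M)) * β c := by
  classical
  rw [NZ_red hf, ← Finset.sum_fiberwise_of_maps_to (g := labF M) (t := L)
    (fun a ha => hL a (mem_IR.1 ha))]
  refine Finset.sum_congr rfl fun β _ => ?_
  have h1 : {a | a ∈ IrrS H ∧ labF M a = β}.ncard = ((IR H).filter (fun a => labF M a = β)).card := by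
    rw [← Set.ncard_coe_finset]
    congr 1
    ext a
    rw [Finset.mem_coe, Finset.mem_filter, mem_IR]
    rfl
  rw [h1, ← nsmul_eq_mul, ← Finset.sum_const]
  refine Finset.sum_congr rfl fun a ha => ?_
  rw [(Finset.mem_filter.1 ha).2]

end basic

/-- **LAB** -/
theorem lab (hf : FrobStmt) (hl : LabelStmt) : LabIdStmt := by
  classical
  intro ℓ _ M _ hM G _ _ hop S hS c
  refine ⟨nn ℓ c, torusSum_nn hf hop c, ?_⟩
  have := Fintype.ofFinite (Quotient (chainSetoid ℓ G))
  have hLfin : (Labs M G).Finite := by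
    have := Fintype.ofFinite G
    apply ((irr_finite' (G := G)).image (labF M)).subset
    rintro β ⟨χ, hχ, rfl⟩
    exact ⟨χ, hχ, rfl⟩
  rw [finsum_mem_eq_finite_toFinset_sum _ hLfin]
  set L := hLfin.toFinset with hL
  have h1 : ∀ q : Quotient (chainSetoid ℓ G), (NZ (stab q.out.mem) c : FF M) = ∑ β ∈ L,
      ((({a | a ∈ IrrS (stab q.out.mem) ∧ labF M a = β}.ncard : ℕ) : FF M)) * β c := by
    intro q
    apply NZ_labels hf
    intro a ha
    rw [hL, Set.Finite.mem_toFinset]
    obtain ⟨χ, hχ, h⟩ := hl ℓ M hM G q.out.mem q.out.pgroup q.out.chain a ha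
    exact ⟨χ, hχ, h⟩
  have h2 : ∀ β ∈ L, (S β : FF M) = ∑ q : Quotient (chainSetoid ℓ G), (-1) ^ q.out.length *
      ((({a | a ∈ IrrS (stab q.out.mem) ∧ labF M a = β}.ncard : ℕ) : FF M)) := by
    intro β hβ
    rw [hL, Set.Finite.mem_toFinset] at hβ
    obtain ⟨χ, hχ, rfl⟩ := hβ
    rw [hS χ hχ, altSum, finsum_eq_sum_of_fintype, Int.cast_sum]
    refine Finset.sum_congr rfl fun q _ => ?_
    rw [H83.ncard_label _ hχ]
    push_cast
    rfl
  unfold nn
  rw [finsum_eq_sum_of_fintype, Int.cast_sum]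
  have h3 : ∀ q : Quotient (chainSetoid ℓ G),
      (((-1) ^ q.out.length * NZ (stab q.out.mem) c : ℤ) : FF M) =
      ∑ β ∈ L, ((-1) ^ q.out.length *
        ((({a | a ∈ IrrS (stab q.out.mem) ∧ labF M a = β}.ncard : ℕ) : FF M))) * β c := by
    intro q
    rw [Int.cast_mul, h1, Finset.mul_sum]
    push_cast
    refine Finset.sum_congr rfl fun β _ => ?_
    ring
  rw [Finset.sum_congr rfl (fun q _ => h3 q), Finset.sum_comm]
  refine Finset.sum_congr rfl fun β hβ => ?_
  rw [h2 β hβ, Finset.sum_mul]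

end Pool.Agent.Helper97_CC
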